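import Pool.Agent.Q233.TL.Ar

/-!
# Koblitz patterns at consecutive primes for almost all vectors of quadratic twists

Let `E_j : y² = x³ + A_j x + B_j` be `k` arbitrary curves and `Q i x` arbitrary sets of primes. For almost all
vectors `(D_1, …, D_k)`, all `x` in a range, all `i ≤ x ^ κ`, all `t_j ≤ x` and every prescribed array of
truth values `b_{lj}`: the number of the `r`-tuples `p_1 < ⋯ < p_r` of consecutive primes of `Q i x` such that
`#E_j^{D_j}(F_{p_l}) / t_j` is a prime number exactly when `b_{lj}` is true, is the mean over the `2 ^ (r k)`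
arrays of signs of the corresponding numbers for the given curves, with square root error.
-/

set_option autoImplicit false

namespace Pool.Agent.Results.MP_b89fd0_nt.ConsecutiveTwists

open Finset Pool.Agent.W406.TW Pool.Agent.Q233.TL Pool.Agent.Q233.TL.Tup

/-- the odd primes `p ≤ x` in `Q` -/
noncomputable def oddPrimes (Q : Set ℕ) (x : ℕ) : Finset ℕ := by
  classical
  exact (Icc 1 x).filter fun p : ℕ => p.Prime ∧ p ≠ 2 ∧ p ∈ Q

/-- all `τ i` are primes of good reduction for all models, and for all `i < r`, `j < k` the number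
`(τ i + 1 - s (i, j) ap (A j) (B j) (τ i)) / t j` is a prime number if and only if `b (i, j)` is true -/
def Pattern {r k : ℕ} (A B : Fin k → ℤ) (t : Fin k → ℕ) (b : Fin r × Fin k → Bool)
    (τ : Fin r → ℕ) (s : Fin r × Fin k → ℤ) : Prop :=
  (∀ i j, ¬ (τ i : ℤ) ∣ 4 * A j ^ 3 + 27 * B j ^ 2) ∧
    ∀ z, ((∃ q : ℕ, q.Prime ∧ (τ z.1 : ℤ) + 1 - s z * ap (A z.2) (B z.2) (τ z.1) = t z.2 * q) ↔ b z = true)

/-- the number of the `r`-tuples of consecutive elements of `P` with the pattern, for the signs `s` -/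
noncomputable def patCount {r k : ℕ} (A B : Fin k → ℤ) (t : Fin k → ℕ) (b : Fin r × Fin k → Bool)
    (s : Fin r × Fin k → ℤ) (P : Finset ℕ) : ℕ := by
  classical
  exact ((consec P r).filter fun τ => Pattern A B t b τ s).card

/-- the number of the `r`-tuples of consecutive elements of `P` with the pattern for some array of signs -/
noncomputable def someCount {r k : ℕ} (A B : Fin k → ℤ) (t : Fin k → ℕ) (b : Fin r × Fin k → Bool)
    (P : Finset ℕ) : ℕ := by
  classical
  exact ((consec P r).filter fun τ => ∃ s ∈ Sgt r k, Pattern A B t b τ s).card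

open Classical in
lemma odd_ok {Q : Set ℕ} {x : ℕ} : ∀ p ∈ oddPrimes Q x, p.Prime ∧ p ≠ 2 ∧ p ≤ x := by
  intro p hp
  unfold oddPrimes at hp
  rw [mem_filter, mem_Icc] at hp
  exact ⟨hp.2.1, hp.2.2.1, hp.1.2⟩

theorem result (r k : ℕ) (hr : 0 < r) (κ ε : ℝ) (hκ : 0 ≤ κ) (hε : 0 < ε) :
    ∃ C c : ℝ, 0 < C ∧ 0 < c ∧ ∃ N₀ : ℕ, ∀ N : ℕ, N₀ ≤ N → ∀ (A B : Fin k → ℤ) (Q : ℕ → ℕ → Set ℕ),
      ({D : Fin k → ℤ | (∀ j, D j ≠ 0 ∧ |D j| ≤ N) ∧ ∃ x : ℕ, (Real.log N) ^ C ≤ x ∧
        (x : ℝ) ≤ (N : ℝ) ^ c ∧ ∃ i : ℕ, (i : ℝ) ≤ (x : ℝ) ^ κ ∧ ∃ t : Fin k → ℕ, (∀ j, t j ≤ x) ∧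
        ∃ b : Fin r × Fin k → Bool,
        √(someCount A B t b (oddPrimes (Q i x) x) : ℝ) * (x : ℝ) ^ ε <
          |(patCount (fun j => A j * D j ^ 2) (fun j => B j * D j ^ 3) t b (fun _ => 1)
              (oddPrimes (Q i x) x) : ℝ) -
            (∑ s ∈ Sgt r k, (patCount A B t b s (oddPrimes (Q i x) x) : ℝ)) / 2 ^ (r * k)|}.ncard : ℝ) ≤
        (N : ℝ) ^ ((k : ℝ) - c) := by
  classical
  obtain ⟨C, c, hC, hc, N₀, h⟩ := Tup.law r k ((κ + 1) + (2 * k + (r * k : ℕ))) ε (by positivity) hε 4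
  refine ⟨C, c, hC, hc, N₀, fun N hN A B Q => ?_⟩
  refine le_trans ?_ (h N hN (ℕ × (Fin k → ℕ) × (Fin r × Fin k → Bool))
    (fun x => range (⌊(x : ℝ) ^ κ⌋₊ + 1) ×ˢ (Fintype.piFinset fun _ : Fin k => range (x + 1)) ×ˢ
      (univ : Finset (Fin r × Fin k → Bool)))
    (fun l x => consec (oddPrimes (Q l.1 x) x) r)
    (fun l => Pattern A B l.2.1 l.2.2) ?_)
  · refine Nat.cast_le.2 (Set.ncard_le_ncard ?_ ?_)
    · rintro D ⟨hD, x, hx1, hx2, i, hi, t, ht, b, hlt⟩
      refine ⟨hD, x, hx1, hx2, (i, t, b), ?_, ?_⟩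
      · simp only [mem_product, Fintype.mem_piFinset, mem_range, mem_univ, and_true]
        exact ⟨Nat.lt_succ_of_le (Nat.le_floor hi), fun j => Nat.lt_succ_of_le (ht j)⟩
      · simp only
        set P := oddPrimes (Q i x) x with hP
        have e1 : (Tup.X (Pattern A B t b) (consec P r)).card = someCount A B t b P := rfl
        have e2 : Tup.mean (Pattern A B t b) (consec P r) =
            (∑ s ∈ Sgt r k, (patCount A B t b s P : ℝ)) / 2 ^ (r * k) := by
          unfold Tup.mean patCount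
          congr 1
          simp_rw [card_filter]
          push_cast
          rw [sum_comm]
        have e3 : Tup.cnt (Pattern A B t b) (consec P r) D =
            patCount (fun j => A j * D j ^ 2) (fun j => B j * D j ^ 3) t b (fun _ => 1) P := by
          unfold Tup.cnt patCount
          congr 1
          refine filter_congr fun τ hτ => ?_
          have hp : ∀ i, (τ i).Prime ∧ τ i ≠ 2 := fun i =>
            ⟨(odd_ok _ (consec_mem hτ i)).1, (odd_ok _ (consec_mem hτ i)).2.1⟩
          unfold Pattern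
          have h2 : ∀ z : Fin r × Fin k, (τ z.1 : ℤ) + 1 - 1 * ap (A z.2 * D z.2 ^ 2) (B z.2 * D z.2 ^ 3) (τ z.1) =
              (τ z.1 : ℤ) + 1 - sym D τ z * ap (A z.2) (B z.2) (τ z.1) := by
            intro z
            rw [ap_twist _ _ _ (hp z.1).1 (hp z.1).2, one_mul]
            rfl
          simp only [h2]
          constructor
          · rintro ⟨h3, h4, h5⟩
            exact ⟨fun i j => (disc_iff _ _ _ (hp i).1).2 ⟨h3 i j, h4 i j⟩, h5⟩
          · rintro ⟨h3, h5⟩
            exact ⟨fun i j => ((disc_iff _ _ _ (hp i).1).1 (h3 i j)).1,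
              fun i j => ((disc_iff _ _ _ (hp i).1).1 (h3 i j)).2, h5⟩
        rw [e1, e2, e3]
        exact hlt
    · refine Set.Finite.subset (Set.Finite.pi (t := fun _ : Fin k => Set.Icc (-(N : ℤ)) N)
        (fun _ => Set.finite_Icc _ _)) ?_
      rintro D ⟨hD, _⟩ j _
      exact abs_le.1 (hD j).2
  · intro x hx
    refine ⟨?_, fun l _ => good_consec hr odd_ok⟩
    have hx4 : (4 : ℝ) ≤ x := by exact_mod_cast hx
    have hx0 : (0 : ℝ) < x := by linarith
    simp only [card_product, Nat.cast_mul]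
    rw [Real.rpow_add hx0 (κ + 1), Real.rpow_add hx0 (2 * (k : ℝ))]
    have h1 := range_card κ hκ x (by omega)
    have h2 : (((Fintype.piFinset fun _ : Fin k => range (x + 1)).card : ℕ) : ℝ) ≤
        (x : ℝ) ^ (2 * (k : ℝ)) := by
      rw [Fintype.card_piFinset]
      simp only [card_range, prod_const, card_univ, Fintype.card_fin]
      push_cast
      rw [Real.rpow_mul hx0.le, Real.rpow_natCast]
      refine pow_le_pow_left₀ (by positivity) ?_ k
      rw [Real.rpow_two]
      nlinarith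
    have h3 : (((univ : Finset (Fin r × Fin k → Bool)).card : ℕ) : ℝ) ≤ (x : ℝ) ^ ((r : ℝ) * k) := by
      rw [card_univ, Fintype.card_fun, Fintype.card_bool, Fintype.card_prod, Fintype.card_fin,
        Fintype.card_fin, ← Nat.cast_mul, Real.rpow_natCast]
      push_cast
      exact pow_le_pow_left₀ (by norm_num) (by linarith) _
    refine mul_le_mul h1 (mul_le_mul h2 h3 ?_ ?_) ?_ ?_ <;> positivity

end Pool.Agent.Results.MP_b89fd0_nt.ConsecutiveTwists
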