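import Pool.Agent.Q235.FD.Ell

/-!
# Koblitz's problem for systems of elliptic curves whose coefficients arise from arbitrary integers by changing a few digits

Let `s` curves `E_j : Y ^ 2 = X ^ 3 + m (j, 0) X + m (j, 1)` be given, whose `2 s` coefficients arise from arbitrary integers by
changing a few digits at random positions. We count the primes `p` of good reduction in an arbitrary set of primes up to `x` (all
primes, those in an arithmetic progression, in a short interval, with a given Frobenius class, ...) such that the orders of the
groups `E_j(F_p)`, divided by `t j`, are prime numbers for all `j` simultaneously. For almost all choices of the positions this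
number is, up to its square root and a factor `x ^ δ`, the sum over the primes of the product of the proportions of the curves
modulo `p` with this property, simultaneously for all `t` and up to `x ^ B` sets of primes, and for all `x` from `y` to
`exp (c r)`, where `r` is the number of the digits changed.

By the theorem of Balog, Cojocaru and David on the average the sum over all primes `p ≤ x` (with `s = 1`) is of the order
`x / (log x) ^ 2`, so that the error term is of the quality of a square root.
-/

set_option autoImplicit false

namespace Pool.Agent.Results.MP_b89fd0_nt.FewDigitSystems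

open Finset Pool.Agent.Q235.FD

/-- `p` is a prime of good reduction of (the model) `Y ^ 2 = X ^ 3 + a X + b`, and the order `#E(F_p) = points p a b + 1`
is `t` times a prime number. -/
def Koblitz (t p a b : ℕ) : Prop := Smooth p a b ∧ ∃ q : ℕ, q.Prime ∧ points p a b + 1 = t * q

/-- For all sets `P` of primes in the family and all `t`, the number of the primes `p ∈ P` such that `#E_j(F_p) / t j` is prime
for all `j` differs from the sum `V` of the products of the proportions by at most `(max 1 V) ^ (1 / 2) x ^ δ`. -/
def Good {s B : ℕ} (δ : ℝ) (θ : Sets B) (x : ℕ) (m : Fin s × Fin 2 → ℕ) : Prop :=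
  ∀ P ∈ θ.S x, ∀ t : Fin s → ℕ, (∀ j, 1 ≤ t j) →
    |(number P (fun p => ∀ j, Koblitz (t j) p (m (j, 0)) (m (j, 1))) : ℝ)
      - ∑ p ∈ P, ∏ j, curveProportion p (Koblitz (t j) p)| ≤
    Real.sqrt (max 1 (∑ p ∈ P, ∏ j, curveProportion p (Koblitz (t j) p))) * (x : ℝ) ^ δ

lemma koblitz_mod (t p a b : ℕ) : Koblitz t p a b ↔ Koblitz t p (a % p) (b % p) := by
  unfold Koblitz
  rw [points_mod, smooth_mod]

lemma koblitz_le {t p a b : ℕ} (h : Koblitz t p a b) : t ≤ p ^ 2 + 1 := by
  obtain ⟨_, q, hq, h2⟩ := h
  have h3 := points_le p a b
  have h4 : t ≤ t * q := Nat.le_mul_of_pos_right t hq.pos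
  omega

/-- For all numbers `s` of curves, bases `b ≥ 2`, `δ > 0`, `A` and `B`, `Good δ θ x m` holds for almost all systems `m` of
coefficients obtained by changing a few digits of arbitrary integers (`ForAlmostAll`), uniformly in the family `θ` of at most
`x ^ B` sets of primes up to `x`. -/
theorem result (s : ℕ) (hs : 1 ≤ s) (b : ℕ) (hb : 2 ≤ b) (δ : ℝ) (hδ : 0 < δ) (A B : ℕ) :
    ForAlmostAll (Fin s × Fin 2) b A (Good (s := s) (B := B) δ) := by
  classical
  have h := ell_law s hs hb hδ A B 3 (fun x => Icc 1 (x ^ 2 + 1)) (by
    intro x hx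
    rw [Nat.card_Icc, Nat.add_sub_cancel]
    have : x ^ 3 = x ^ 2 * x := by ring
    nlinarith [pow_pos (by omega : 0 < x) 2]) Koblitz koblitz_mod
  refine h.mono 0 ?_
  intro θ x m _ hE P hP t ht
  by_cases hall : ∀ j, t j ∈ Icc 1 (x ^ 2 + 1)
  · exact hE P hP t hall
  · push Not at hall
    obtain ⟨j, hj⟩ := hall
    have hlt : x ^ 2 + 1 < t j := by
      by_contra hcon
      exact hj (mem_Icc.2 ⟨ht j, by omega⟩)
    have hno : ∀ p ∈ P, ∀ a b, ¬ Koblitz (t j) p a b := by
      intro p hp a b hk
      have h1 := koblitz_le hk
      have h2 := (θ.prime x P hP p hp).2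
      have h3 : p ^ 2 ≤ x ^ 2 := Nat.pow_le_pow_left h2 2
      omega
    have h1 : number P (fun p => ∀ j, Koblitz (t j) p (m (j, 0)) (m (j, 1))) = 0 :=
      number_eq_zero fun p hp hcon => hno p hp _ _ (hcon j)
    have h2 : ∑ p ∈ P, ∏ j, curveProportion p (Koblitz (t j) p) = 0 :=
      sum_eq_zero fun p hp => prod_eq_zero (mem_univ j) (curveProportion_eq_zero (hno p hp))
    rw [h1, h2, Nat.cast_zero, sub_zero, abs_zero]
    positivity

end Pool.Agent.Results.MP_b89fd0_nt.FewDigitSystems
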