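import Pool.Agent.Q56.WL.Ell

/-!
# Koblitz's problem for ALL systems of elliptic curves with coefficients in windows near powers with non-integral exponents

Let `s` curves `E_j : Y ^ 2 = X ^ 3 + n (j, 0) X + n (j, 1)` be given, whose `2 s` coefficients are arbitrary integers in the
windows of length `y ^ W` around the real numbers `β l + w l * i (μ l) ^ e l`, where `i = (i_1, ..., i_m)` runs through
`{1, ..., x} ^ m`, the exponents `e l > 1` are not integers, and two coordinates `l`, `l'` which depend on the same index have
different exponents. For instance `m = 1`: the curves with coefficients close to `(i ^ (3/2), i ^ (5/2))`, a one-parameter family.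
We count the primes `p` of good reduction in an arbitrary set of primes up to `z` such that the orders of the groups
`E_j(F_p)`, divided by `t j`, are prime numbers for all `j` simultaneously. For almost all index vectors and ALL coefficients in the
windows this number is, up to its square root and a factor `z ^ δ`, the sum over the primes of the product of the proportions of
the curves modulo `p` with this property, simultaneously for all `t`, for up to `z ^ B` sets of primes, and for all `z` from `y`
to `x ^ c`.

Proof. The moments of such sums, over all integer points of the windows, are bounded by the moments over complete systems of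
residues (`Pool.Agent.Q56.WL.ker`, with products of Fejér kernels), if the exponential sums over the real points with
frequencies of small denominators are small (van der Corput's method, `Pool.Agent.Q56.WL.single`).
-/

set_option autoImplicit false

namespace Pool.Agent.Results.MP_b89fd0_nt.NearPowers

open Finset Pool.Agent.Q56.WL
open Pool.Agent.Q235.FD (Sets number curveProportion Smooth points points_mod smooth_mod points_le number_eq_zero
  curveProportion_eq_zero)

/-- `p` is a prime of good reduction of (the model) `Y ^ 2 = X ^ 3 + a X + b`, and the order `#E(F_p) = points p a b + 1`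
is `t` times a prime number. -/
def Koblitz (t p a b : ℕ) : Prop := Smooth p a b ∧ ∃ q : ℕ, q.Prime ∧ points p a b + 1 = t * q

/-- For all sets `P` of primes in the family and all `t`, the number of the primes `p ∈ P` such that `#E_j(F_p) / t j` is prime
for all `j` differs from the sum `V` of the products of the proportions by at most `(max 1 V) ^ (1 / 2) z ^ δ`. -/
def Good {s B : ℕ} (δ : ℝ) (θ : Sets B) (z : ℕ) (n : Fin s × Fin 2 → ℕ) : Prop :=
  ∀ P ∈ θ.S z, ∀ t : Fin s → ℕ, (∀ j, 1 ≤ t j) →
    |(number P (fun p => ∀ j, Koblitz (t j) p (n (j, 0)) (n (j, 1))) : ℝ)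
      - ∑ p ∈ P, ∏ j, curveProportion p (Koblitz (t j) p)| ≤
    Real.sqrt (max 1 (∑ p ∈ P, ∏ j, curveProportion p (Koblitz (t j) p))) * (z : ℝ) ^ δ

lemma koblitz_mod (t p a b : ℕ) : Koblitz t p a b ↔ Koblitz t p (a % p) (b % p) := by
  unfold Koblitz
  rw [points_mod, smooth_mod]

lemma koblitz_le {t p a b : ℕ} (h : Koblitz t p a b) : t ≤ p ^ 2 + 1 := by
  obtain ⟨_, q, hq, h2⟩ := h
  have h3 := points_le p a b
  have h4 : t ≤ t * q := Nat.le_mul_of_pos_right t hq.pos
  omega

/-- Let the exponents `e`, the coefficients `w` and the map `μ` from the `2 s` coordinates to the `m` indices be as in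
`Setting`. For all `δ > 0`, `A`, `W` and `B` the property `Good δ θ z n` holds for almost all index vectors and ALL coefficients
`n` in the windows of length `y ^ W` (`ForAlmostAll`), uniformly in the shifts `β` and in the family `θ` of at most `z ^ B` sets of
primes up to `z`. -/
theorem result (s m : ℕ) (e w : Fin s × Fin 2 → ℝ) (μ : Fin s × Fin 2 → Fin m) (hs : Setting e w μ)
    (δ : ℝ) (hδ : 0 < δ) (A W B : ℕ) : ForAlmostAll e w μ A W (Good (s := s) (B := B) δ) := by
  classical
  have h := ell_near hs hδ A W B 3 (fun x => Icc 1 (x ^ 2 + 1)) (by
    intro x hx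
    rw [Nat.card_Icc, Nat.add_sub_cancel]
    have : x ^ 3 = x ^ 2 * x := by ring
    nlinarith [pow_pos (by omega : 0 < x) 2]) Koblitz koblitz_mod
  refine h.mono 0 ?_
  intro θ x n _ hE P hP t ht
  by_cases hall : ∀ j, t j ∈ Icc 1 (x ^ 2 + 1)
  · exact hE P hP t hall
  · push Not at hall
    obtain ⟨j, hj⟩ := hall
    have hlt : x ^ 2 + 1 < t j := by
      by_contra hcon
      exact hj (mem_Icc.2 ⟨ht j, by omega⟩)
    have hno : ∀ p ∈ P, ∀ a b, ¬ Koblitz (t j) p a b := by
      intro p hp a b hk
      have h1 := koblitz_le hk
      have h2 := (θ.prime x P hP p hp).2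
      have h3 : p ^ 2 ≤ x ^ 2 := Nat.pow_le_pow_left h2 2
      omega
    have h1 : number P (fun p => ∀ j, Koblitz (t j) p (n (j, 0)) (n (j, 1))) = 0 :=
      number_eq_zero fun p hp hcon => hno p hp _ _ (hcon j)
    have h2 : ∑ p ∈ P, ∏ j, curveProportion p (Koblitz (t j) p) = 0 :=
      sum_eq_zero fun p hp => prod_eq_zero (mem_univ j) (curveProportion_eq_zero (hno p hp))
    rw [h1, h2, Nat.cast_zero, sub_zero, abs_zero]
    positivity

end Pool.Agent.Results.MP_b89fd0_nt.NearPowers
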