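import Mathlib
import Pool.Agent.Q233.TL.Curves

set_option autoImplicit false

/-! # Koblitz counts for almost all vectors of quadratic twists

Let `E_j : y² = x³ + A_j x + B_j` be `k` arbitrary curves and `Q_0, Q_1, …` arbitrary sets of primes.
For all but at most `N ^ (k - c)` of the vectors `(D_1, …, D_k)` of nonzero integers of modulus at
most `N`, the following holds for all `x` with `(log N) ^ C ≤ x ≤ N ^ c`, all `i ≤ x ^ κ` and all
vectors `(t_1, …, t_k)` of positive integers: the number of the primes `p ≤ x` in `Q_i` for which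
`#E_j^{D_j}(F_p) / t_j` is a prime number for all `j` is the mean, over the `2 ^ k` sign vectors `s`,
of the numbers of the primes `p ≤ x` in `Q_i` for which `(p + 1 - s_j a_p(E_j)) / t_j` is a prime
number for all `j`, with an error `√n x ^ ε`, where `n` is the number of the primes `p ≤ x` in `Q_i`
which are counted for at least one `s`.
-/

namespace Pool.Agent.Results.MP_b89fd0_nt.SimultaneousTwists

open Finset Pool.Agent.W406.TW Pool.Agent.Q233.TL

/-- `p` is an odd prime in `Q`, not dividing `4 A_j³ + 27 B_j²` for any `j`, and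
`(p + 1 - s_j ap (A j) (B j) p) / t_j` is a prime number for all `j` -/
def IsKoblitz {k : ℕ} (A B s : Fin k → ℤ) (t : Fin k → ℕ) (Q : Set ℕ) (p : ℕ) : Prop :=
  p.Prime ∧ p ≠ 2 ∧ p ∈ Q ∧ ∀ j, ¬ (p : ℤ) ∣ 4 * A j ^ 3 + 27 * B j ^ 2 ∧
    ∃ q : ℕ, q.Prime ∧ (p : ℤ) + 1 - s j * ap (A j) (B j) p = t j * q

/-- the number of the `p ≤ x` with `IsKoblitz A B s t Q p` -/
noncomputable def koblitzCount {k : ℕ} (A B s : Fin k → ℤ) (t : Fin k → ℕ) (Q : Set ℕ) (x : ℕ) : ℕ := by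
  classical
  exact ((Icc 1 x).filter fun p : ℕ => IsKoblitz A B s t Q p).card

/-- the sign vectors -/
def signs (k : ℕ) : Finset (Fin k → ℤ) := Fintype.piFinset fun _ => ({1, -1} : Finset ℤ)

/-- the number of the `p ≤ x` with `IsKoblitz A B s t Q p` for at least one sign vector `s` -/
noncomputable def someCount {k : ℕ} (A B : Fin k → ℤ) (t : Fin k → ℕ) (Q : Set ℕ) (x : ℕ) : ℕ := by
  classical
  exact ((Icc 1 x).filter fun p : ℕ => ∃ s ∈ signs k, IsKoblitz A B s t Q p).card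

/-- the predicate for the twist law -/
def Ev {k : ℕ} (A B : Fin k → ℤ) (Q : Set ℕ) (t : Fin k → ℕ) (p : ℕ) (s : Fin k → ℤ) : Prop :=
  IsKoblitz A B s t Q p

lemma X_card {k : ℕ} (A B : Fin k → ℤ) (t : Fin k → ℕ) (Q : Set ℕ) (x : ℕ) :
    (X (Ev A B Q t) x).card = someCount A B t Q x := by
  classical
  unfold someCount
  congr 1
  ext p
  rw [mem_X, mem_filter, mem_Icc]
  constructor
  · rintro ⟨h1, _, _, s, hs, h4⟩
    exact ⟨h1, s, hs, h4⟩
  · rintro ⟨h1, s, hs, h4⟩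
    exact ⟨h1, h4.1, h4.2.1, s, hs, h4⟩

lemma mean_card {k : ℕ} (A B : Fin k → ℤ) (t : Fin k → ℕ) (Q : Set ℕ) (x : ℕ) :
    mean (Ev A B Q t) x = (∑ s ∈ signs k, (koblitzCount A B s t Q x : ℝ)) / 2 ^ k := by
  classical
  unfold mean koblitzCount
  congr 1
  simp_rw [card_filter]
  push_cast
  rw [sum_comm]
  refine sum_congr rfl fun s _ => ?_
  rw [sum_filter]
  refine sum_congr rfl fun p _ => ?_
  by_cases h : IsKoblitz A B s t Q p
  · rw [if_pos ⟨h.1, h.2.1⟩]
    rfl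
  · rw [if_neg (show ¬ IsKoblitz A B s t Q p from h)]
    split_ifs with h1 h2
    · exact absurd h2 h
    · rfl
    · rfl

lemma cnt_eq {k : ℕ} (A B D : Fin k → ℤ) (t : Fin k → ℕ) (Q : Set ℕ) (x : ℕ) :
    Q233.TL.cnt (Ev A B Q t) D x =
      koblitzCount (fun j => A j * D j ^ 2) (fun j => B j * D j ^ 3) (fun _ => 1) t Q x := by
  classical
  unfold Q233.TL.cnt koblitzCount
  congr 1
  ext p
  rw [mem_filter, mem_filter]
  constructor
  · rintro ⟨h1, h2, h3, h4, _, _, h5, h6⟩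
    refine ⟨h1, h2, h3, h5, fun j => ⟨(disc_iff _ _ _ h2).2 ⟨h4 j, (h6 j).1⟩, ?_⟩⟩
    rw [ap_twist _ _ _ h2 h3, one_mul]
    exact (h6 j).2
  · rintro ⟨h1, h2, h3, h4, h5⟩
    refine ⟨h1, h2, h3, fun j => ((disc_iff _ _ _ h2).1 (h5 j).1).1, h2, h3, h4, fun j =>
      ⟨((disc_iff _ _ _ h2).1 (h5 j).1).2, ?_⟩⟩
    have h6 := (h5 j).2
    rw [ap_twist _ _ _ h2 h3, one_mul] at h6
    exact h6

lemma t_le {k : ℕ} {A B s : Fin k → ℤ} {t : Fin k → ℕ} {Q : Set ℕ} {p x : ℕ} (hp : p ≤ x)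
    (hs : s ∈ signs k) (h : IsKoblitz A B s t Q p) (j : Fin k) : t j ≤ 2 * x + 1 := by
  obtain ⟨_, q, hq, h1⟩ := h.2.2.2 j
  have h2 := ap_abs (A j) (B j) p
  have h3 : |s j * ap (A j) (B j) p| ≤ p := by
    unfold signs at hs
    have h4 := (Fintype.mem_piFinset.1 hs) j
    rw [mem_insert, mem_singleton] at h4
    rcases h4 with h4 | h4 <;> rw [h4] <;> simpa using h2
  have h5 := (abs_le.1 h3).1
  have h6 : (t j : ℤ) * q ≤ 2 * x + 1 := by
    have : (p : ℤ) ≤ x := by exact_mod_cast hp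
    linarith
  have h7 : (t j : ℤ) ≤ t j * q := by
    have := hq.one_lt
    have h8 : (1 : ℤ) ≤ q := by exact_mod_cast this.le
    nlinarith [Int.natCast_nonneg (t j)]
  have h8 : (t j : ℤ) ≤ 2 * x + 1 := h7.trans h6
  exact_mod_cast h8

lemma one_mem (k : ℕ) : (fun _ => 1) ∈ signs k := by
  unfold signs
  rw [Fintype.mem_piFinset]
  simp

theorem result (k : ℕ) (κ ε : ℝ) (hκ : 0 ≤ κ) (hε : 0 < ε) :
    ∃ C c : ℝ, 0 < C ∧ 0 < c ∧ ∃ N₀ : ℕ, ∀ N : ℕ, N₀ ≤ N → ∀ (A B : Fin k → ℤ) (Q : ℕ → Set ℕ),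
      ({D : Fin k → ℤ | (∀ j, D j ≠ 0 ∧ |D j| ≤ N) ∧ ∃ x : ℕ, (Real.log N) ^ C ≤ x ∧
        (x : ℝ) ≤ (N : ℝ) ^ c ∧ ∃ i : ℕ, (i : ℝ) ≤ (x : ℝ) ^ κ ∧ ∃ t : Fin k → ℕ, (∀ j, t j ≠ 0) ∧
        √(someCount A B t (Q i) x : ℝ) * (x : ℝ) ^ ε <
          |(koblitzCount (fun j => A j * D j ^ 2) (fun j => B j * D j ^ 3) (fun _ => 1) t (Q i) x : ℝ) -
            (∑ s ∈ signs k, (koblitzCount A B s t (Q i) x : ℝ)) / 2 ^ k|}.ncard : ℝ) ≤
        (N : ℝ) ^ ((k : ℝ) - c) := by
  classical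
  obtain ⟨C, c, hC, hc, N₀, h⟩ := law k (2 * k + (κ + 1)) ε (by positivity) hε 3
  refine ⟨C, c, hC, hc, N₀, fun N hN A B Q => ?_⟩
  refine le_trans ?_ (h N hN ((Fin k → ℕ) × ℕ)
    (fun x => (Fintype.piFinset fun _ : Fin k => Icc 1 (2 * x + 1)) ×ˢ range (⌊(x : ℝ) ^ κ⌋₊ + 1))
    (fun l => Ev A B (Q l.2) l.1) ?_)
  · refine Nat.cast_le.2 (Set.ncard_le_ncard ?_ ?_)
    · rintro D ⟨hD, x, hx1, hx2, i, hi, t, ht, hlt⟩
      refine ⟨hD, x, hx1, hx2, (t, i), ?_, ?_⟩
      · rw [mem_product]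
        constructor
        · rw [Fintype.mem_piFinset]
          intro j
          by_contra hcon
          have h0 : ∀ (A' B' s : Fin k → ℤ) (p : ℕ), s ∈ signs k → p ∈ Icc 1 x →
              ¬ IsKoblitz A' B' s t (Q i) p := by
            intro A' B' s p hs hp h1
            apply hcon
            rw [mem_Icc]
            exact ⟨Nat.one_le_iff_ne_zero.2 (ht j), t_le (mem_Icc.1 hp).2 hs h1 j⟩
          have h1 : ∀ (A' B' s : Fin k → ℤ), s ∈ signs k → koblitzCount A' B' s t (Q i) x = 0 := by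
            intro A' B' s hs
            unfold koblitzCount
            rw [card_eq_zero]
            exact filter_eq_empty_iff.2 fun p hp => h0 A' B' s p hs hp
          have h3 : someCount A B t (Q i) x = 0 := by
            unfold someCount
            rw [card_eq_zero]
            apply filter_eq_empty_iff.2
            rintro p hp ⟨s, hs, h4⟩
            exact h0 A B s p hs hp h4
          rw [h3, h1 _ _ _ (one_mem k), sum_eq_zero (fun s hs => by rw [h1 _ _ _ hs]; simp)] at hlt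
          simp at hlt
        · rw [mem_range]
          exact Nat.lt_succ_of_le (Nat.le_floor hi)
      · rw [X_card A B t, mean_card A B t, cnt_eq]
        exact hlt
    · refine Set.Finite.subset (Set.Finite.pi (t := fun _ : Fin k => Set.Icc (-(N : ℤ)) N)
        (fun _ => Set.finite_Icc _ _)) ?_
      rintro D ⟨hD, _⟩ j _
      exact abs_le.1 (hD j).2
  · intro x hx
    have hx1 : (1 : ℝ) ≤ x := by
      have : (3 : ℝ) ≤ x := by exact_mod_cast hx
      linarith
    have hx0 : (0 : ℝ) < x := by linarith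
    rw [card_product, Nat.cast_mul, Real.rpow_add hx0]
    refine mul_le_mul ?_ (range_card κ hκ x hx) (by positivity) (by positivity)
    refine le_trans (le_of_eq ?_) (box_card k x hx)
    rw [Fintype.card_piFinset, Fintype.card_piFinset]
    simp only [card_Icc_sym, prod_const, card_univ, Fintype.card_fin, Nat.card_Icc]
    rfl

end Pool.Agent.Results.MP_b89fd0_nt.SimultaneousTwists
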